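import Mathlib
import Pool.Agent.Q110.GW.Crit

/-!
# The linear bound for Waring's function is equivalent to a positive proportion in sparse intervals

`G(k) = O(k)` if and only if there is a constant `C` such that for every `k` and all large `N` some
interval of length at least `N` inside `[0, N ^ C]` contains a proportion at least `1 / C` of sums of
`C k` `k`-th powers.  More precisely, for a single `k`, if this is so for sums of `s` `k`-th powers, then
`G(k) ≤ 4 C (s + 1) + 2 k (C + 1)`.

Proof. Let `A` be a set of sums of `s` `k`-th powers in the interval, `a` its least element. The sums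
`a' - a`, `a' - a + 1` (`a'` in `A`) are put into a cyclic group whose order is the largest of them; as
they contain the generator `1`, Kneser's theorem shows that about `2 C` of them cover the group, and
so about `4 C` of them cover an interval of length at least `|A|`. The `k`-th powers have gaps of length
`O(n ^ (1 - 1 / k))`; so each further power raises the length of a complete interval to the power
`1 + 1 / (2 k)`.
-/

set_option autoImplicit false

namespace Pool.Agent.Results.MP_45c923_nt.DenseIntervals

/-- `n` is a sum of `s` `k`-th powers of natural numbers (zero allowed) -/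
def IsSum (k s n : ℕ) : Prop := ∃ x : Fin s → ℕ, ∑ i, x i ^ k = n

open Classical in
/-- the number of the integers in `[u, u + M)` that are sums of `s` `k`-th powers -/
noncomputable def count (k s u M : ℕ) : ℕ :=
  ((Finset.Ico u (u + M)).filter (fun n => IsSum k s n)).card

/-- For all large `N` some interval of length `M ≥ N` in `[0, N ^ C]` contains at least `M / C` sums of
`s` `k`-th powers. -/
def DenseIntervals (k s C : ℕ) : Prop :=
  ∃ N₀ : ℕ, ∀ N ≥ N₀, ∃ u M : ℕ, N ≤ M ∧ u + M ≤ N ^ C ∧ M ≤ C * count k s u M

theorem result :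
    (∀ k s C : ℕ, 2 ≤ k → DenseIntervals k s C →
      ∃ N₁ : ℕ, ∀ n ≥ N₁, IsSum k (4 * C * (s + 1) + 2 * k * (C + 1)) n) ∧
    ((∃ C : ℕ, ∀ k : ℕ, 2 ≤ k → ∃ N₁ : ℕ, ∀ n ≥ N₁, IsSum k (C * k) n) ↔
      ∃ C : ℕ, ∀ k : ℕ, 2 ≤ k → DenseIntervals k (C * k) C) := by
  have hA : ∀ k s C : ℕ, 2 ≤ k → DenseIntervals k s C →
      ∃ N₁ : ℕ, ∀ n ≥ N₁, IsSum k (4 * C * (s + 1) + 2 * k * (C + 1)) n :=
    fun k s C hk h => Pool.Agent.Q110.GW.criterion k s C hk h
  refine ⟨hA, ?_, ?_⟩
  · rintro ⟨C, h⟩
    refine ⟨C + 2, fun k hk => ?_⟩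
    obtain ⟨N₁, h1⟩ := h k hk
    refine ⟨N₁ + 2, fun N hN => ⟨N, N, le_rfl, ?_, ?_⟩⟩
    · calc N + N = 2 * N := by ring
        _ ≤ N * N := Nat.mul_le_mul_right _ (by omega)
        _ = N ^ 2 := by ring
        _ ≤ N ^ (C + 2) := Nat.pow_le_pow_right (by omega) (by omega)
    · have h2 : count k ((C + 2) * k) N N = N := by
        classical
        unfold count
        have e : (Finset.Ico N (N + N)).filter (fun n => IsSum k ((C + 2) * k) n) =
            Finset.Ico N (N + N) := by
          apply Finset.filter_true_of_mem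
          intro n hn
          have h3 : Pool.Agent.Q110.GW.IsSum k (C * k) n :=
            h1 n (by have := (Finset.mem_Ico.1 hn).1; omega)
          exact h3.mono (by omega) (Nat.mul_le_mul_right _ (by omega))
        have e' : ((Finset.Ico N (N + N)).filter (fun n => IsSum k ((C + 2) * k) n)).card = N := by
          rw [e]; simp
        convert e'
      rw [h2]
      nlinarith
  · rintro ⟨C, h⟩
    refine ⟨(4 * C + 2) * (C + 1), fun k hk => ?_⟩
    obtain ⟨N₁, h1⟩ := hA k (C * k) C hk (h k hk)
    refine ⟨N₁, fun n hn => ?_⟩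
    have h2 : Pool.Agent.Q110.GW.IsSum k (4 * C * (C * k + 1) + 2 * k * (C + 1)) n := h1 n hn
    refine h2.mono (by omega) ?_
    calc 4 * C * (C * k + 1) + 2 * k * (C + 1) ≤ 4 * C * (C * k + k) + 2 * k * (C + 1) := by
          gcongr; omega
      _ = (4 * C + 2) * (C + 1) * k := by ring

end Pool.Agent.Results.MP_45c923_nt.DenseIntervals
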