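import Mathlib
import Pool.Agent.Q43.MW.Gl3

set_option autoImplicit false

/-!
# Sums of integer parts of powers: almost all integers, almost all coefficients
-/

namespace Pool.Agent.Results.MP_45c923_nt.IntegerPartsAlmostAll

open MeasureTheory Finset

lemma isSum_iff {n : ℕ} {l c : Fin (n + 1) → ℝ} (hl : ∀ i, 0 < l i) (m : ℕ) :
    (∃ x : Fin (n + 1) → ℕ, (∀ i, 1 ≤ x i) ∧ ∑ i, ⌊l i * (x i : ℝ) ^ c i⌋₊ = m) ↔
      Pool.Agent.Q43.MW.RepF l c (m : ℤ) := by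
  have key : ∀ x : Fin (n + 1) → ℕ, ((∑ i, ⌊l i * (x i : ℝ) ^ c i⌋₊ : ℕ) : ℤ) = ∑ i, ⌊l i * (x i : ℝ) ^ c i⌋ := by
    intro x
    push_cast
    refine Finset.sum_congr rfl fun i _ => ?_
    rw [← Int.natCast_floor_eq_floor]
    have := (hl i).le
    positivity
  constructor
  · rintro ⟨x, h1, h2⟩
    exact ⟨x, h1, by rw [← key, h2]⟩
  · rintro ⟨x, h1, h2⟩
    refine ⟨x, h1, ?_⟩
    rw [← key] at h2
    exact_mod_cast h2

/-- from dyadic intervals to initial intervals -/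
lemma initial {P : ℕ → Prop} {δ C : ℝ} (hδ1 : δ < 1)
    (h : ∀ Z : ℝ, 1 ≤ Z → ∀ F : Finset ℕ, (∀ m ∈ F, Z ≤ m ∧ (m : ℝ) ≤ 2 * Z ∧ ¬ P m) →
      (F.card : ℝ) ≤ C * Z ^ (1 - δ)) :
    ∃ C₂ : ℝ, ∀ N : ℕ, ∀ F : Finset ℕ, (∀ m ∈ F, 1 ≤ m ∧ m ≤ N ∧ ¬ P m) →
      (F.card : ℝ) ≤ C₂ * (N : ℝ) ^ (1 - δ) := by
  have hδ : 0 < 1 - δ := by linarith
  set q : ℝ := (1 / 2) ^ (1 - δ) with hq
  have hq0 : 0 < q := by positivity
  have hq1 : q < 1 := Real.rpow_lt_one (by norm_num) (by norm_num) hδ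
  set C₀ : ℝ := max C 0 with hC₀
  have hC₀0 : 0 ≤ C₀ := le_max_right _ _
  set C₂ : ℝ := C₀ / (1 - q) with hC₂
  have hC₂0 : 0 ≤ C₂ := div_nonneg hC₀0 (by linarith)
  have hC₂e : C₂ * q + C₀ = C₂ := by
    rw [hC₂]
    have : 1 - q ≠ 0 := by linarith
    field_simp
    ring
  refine ⟨C₂, fun N => ?_⟩
  induction N using Nat.strong_induction_on with
  | _ N ih =>
    intro F hF
    rcases Nat.eq_zero_or_pos N with h0 | h0
    · have : F = ∅ := by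
        refine Finset.eq_empty_of_forall_notMem fun m hm => ?_
        have := hF m hm
        omega
      rw [this, card_empty, Nat.cast_zero]
      positivity
    · set M : ℕ := (N + 1) / 2 with hM
      have hM1 : 1 ≤ M := by omega
      have hMN : M ≤ N := by omega
      have h2M : N ≤ 2 * M := by omega
      have h2M' : 2 * (M - 1) ≤ N := by omega
      have hMr : (1 : ℝ) ≤ M := by exact_mod_cast hM1
      have h1 := ih (M - 1) (by omega) (F.filter fun m => m ≤ M - 1) (fun m hm => by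
        rw [mem_filter] at hm
        have := hF m hm.1
        exact ⟨this.1, hm.2, this.2.2⟩)
      have h2 := h M hMr (F.filter fun m => ¬ m ≤ M - 1) (fun m hm => by
        rw [mem_filter] at hm
        have h3 := hF m hm.1
        have h4 : M ≤ m := by omega
        have h5 : m ≤ 2 * M := by omega
        exact ⟨by exact_mod_cast h4, by exact_mod_cast h5, h3.2.2⟩)
      have h3 : (F.card : ℝ) = ((F.filter fun m => m ≤ M - 1).card : ℝ) +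
          ((F.filter fun m => ¬ m ≤ M - 1).card : ℝ) := by
        exact_mod_cast (card_filter_add_card_filter_not (s := F) (fun m => m ≤ M - 1)).symm
      have h4 : ((M - 1 : ℕ) : ℝ) ^ (1 - δ) ≤ q * (N : ℝ) ^ (1 - δ) := by
        rw [hq, ← Real.mul_rpow (by norm_num) (Nat.cast_nonneg N)]
        refine Real.rpow_le_rpow (Nat.cast_nonneg _) ?_ hδ.le
        have : (2 : ℝ) * ((M - 1 : ℕ) : ℝ) ≤ N := by exact_mod_cast h2M'
        linarith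
      have h5 : (M : ℝ) ^ (1 - δ) ≤ (N : ℝ) ^ (1 - δ) :=
        Real.rpow_le_rpow (Nat.cast_nonneg _) (by exact_mod_cast hMN) hδ.le
      have h6 : C * (M : ℝ) ^ (1 - δ) ≤ C₀ * (N : ℝ) ^ (1 - δ) :=
        mul_le_mul (le_max_left _ _) h5 (by positivity) hC₀0
      calc (F.card : ℝ) ≤ C₂ * ((M - 1 : ℕ) : ℝ) ^ (1 - δ) + C * (M : ℝ) ^ (1 - δ) := by linarith
        _ ≤ C₂ * (q * (N : ℝ) ^ (1 - δ)) + C₀ * (N : ℝ) ^ (1 - δ) :=
            add_le_add (mul_le_mul_of_nonneg_left h4 hC₂0) h6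
        _ = (C₂ * q + C₀) * (N : ℝ) ^ (1 - δ) := by ring
        _ = C₂ * (N : ℝ) ^ (1 - δ) := by rw [hC₂e]

/-- Let `c_0, ..., c_s` be real exponents, at least `1`, with `1 / c_0 + ... + 1 / c_s > 1`, and let
`δ < 1`, `δ < (1 / c_0 + ... + 1 / c_s - 1) / (6 c_0)`. For almost all positive reals `l_0, ..., l_s`, the number
of the positive integers up to `N` that are not `⌊l_0 x_0 ^ c_0⌋ + ... + ⌊l_s x_s ^ c_s⌋` for any positive
integers `x_0, ..., x_s` is at most `C N ^ (1 - δ)`. -/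
theorem result {s : ℕ} (c : Fin (s + 1) → ℝ) (hc : ∀ i, 1 ≤ c i) (hsum : 1 < ∑ i, (c i)⁻¹) (δ : ℝ)
    (hδ1 : δ < 1) (hδ : δ < (∑ i, (c i)⁻¹ - 1) / (6 * c 0)) :
    ∀ᵐ l : Fin (s + 1) → ℝ, (∀ i, 0 < l i) → ∃ C : ℝ, ∀ N : ℕ, 1 ≤ N →
      ({m : ℕ | 1 ≤ m ∧ m ≤ N ∧
        ¬ ∃ x : Fin (s + 1) → ℕ, (∀ i, 1 ≤ x i) ∧ ∑ i, ⌊l i * (x i : ℝ) ^ c i⌋₊ = m}.ncard : ℝ) ≤
          C * (N : ℝ) ^ (1 - δ) := by
  filter_upwards [Pool.Agent.Q43.MW.all_AL hc hsum hδ1 hδ] with l hl h1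
  obtain ⟨C, hC⟩ := hl h1
  obtain ⟨C₂, hC₂⟩ := initial
    (P := fun m => ∃ x : Fin (s + 1) → ℕ, (∀ i, 1 ≤ x i) ∧ ∑ i, ⌊l i * (x i : ℝ) ^ c i⌋₊ = m) hδ1 (C := C)
    (fun Z hZ F hF => by
      have h3 := hC Z hZ (F.map Nat.castEmbedding) (fun m hm => by
        rw [mem_map] at hm
        obtain ⟨k, hk, rfl⟩ := hm
        obtain ⟨h4, h5, h6⟩ := hF k hk
        refine ⟨?_, ?_, ?_⟩
        · simpa using h4
        · simpa using h5
        · rw [isSum_iff h1] at h6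
          exact h6)
      rwa [card_map] at h3)
  refine ⟨C₂, fun N _ => ?_⟩
  have hfin : {m : ℕ | 1 ≤ m ∧ m ≤ N ∧
      ¬ ∃ x : Fin (s + 1) → ℕ, (∀ i, 1 ≤ x i) ∧ ∑ i, ⌊l i * (x i : ℝ) ^ c i⌋₊ = m}.Finite :=
    (Set.finite_Icc 1 N).subset fun m hm => ⟨hm.1, hm.2.1⟩
  rw [Set.ncard_eq_toFinset_card _ hfin]
  refine hC₂ N _ fun m hm => ?_
  rw [Set.Finite.mem_toFinset] at hm
  exact hm

end Pool.Agent.Results.MP_45c923_nt.IntegerPartsAlmostAll
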