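import Pool.Agent.Q189.PV.Main

/-!
# The order of magnitude of `G(k)` is decided by the values of any fixed polynomial

Let `P` be a polynomial of degree `d ≥ 1` with integer coefficients, for instance `x ^ r` with a fixed
`r`. If all large values `P(m)` are sums of `s` `k`-th powers, then `s ≥ k / d` and `G(k) ≤ K s`, where
`K` depends only on `P`; so Waring's function has the same order of magnitude as the function for
squares, or for cubes, and so on. It is enough that for a positive proportion of the `m` up to one number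
`L` of each window `[N, N ^ C]` the value `P(m)` is a sum of `s` `k`-th powers; `G(k) = O(k)` is
equivalent to this with `s = C k`, for every `P` with positive leading coefficient.

Proof. For some `t = t(P)` the equation `P(x_1) + ... + P(x_t) = P(y_1) + ... + P(y_t)` has
`O(L ^ (2 t - d))` solutions in `[1, L]` (`Pool/Agent/Y834/CD/Poly.lean`). By the inequality of Cauchy
and Schwarz the sums of `t` values at the points of a set of positive density form a positive proportion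
of the integers in an interval of length `O(L ^ d)`. Now the criterion of `Pool/Agent/Q110/GW/Crit.lean`
(Kneser's theorem and the greedy step) applies.
-/

set_option autoImplicit false

namespace Pool.Agent.Results.MP_45c923_nt.PolynomialValuesSuffice

/-- `n` is a sum of `s` `k`-th powers of natural numbers (zero allowed) -/
def IsSum (k s n : ℕ) : Prop := ∃ x : Fin s → ℕ, ∑ i, x i ^ k = n

/-- the value `P m` is a natural number which is a sum of `s` `k`-th powers -/
def ValueIsSum (P : Polynomial ℤ) (k s m : ℕ) : Prop :=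
  ∃ n : ℕ, (n : ℤ) = P.eval (m : ℤ) ∧ IsSum k s n

open Classical in
/-- the number of the `m` in `[1, L]` for which `P m` is a sum of `s` `k`-th powers -/
noncomputable def valueCount (P : Polynomial ℤ) (k s L : ℕ) : ℕ :=
  ((Finset.Icc 1 L).filter (fun m => ValueIsSum P k s m)).card

/-- For all large `N` there is `L` in `[N, N ^ C]` such that for at least `L / C` of the `m` in `[1, L]`
the value `P m` is a sum of `s` `k`-th powers. -/
def ManyValues (P : Polynomial ℤ) (k s C : ℕ) : Prop :=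
  ∃ N₀ : ℕ, ∀ N ≥ N₀, ∃ L : ℕ, N ≤ L ∧ L ≤ N ^ C ∧ L ≤ C * valueCount P k s L

/-- **The values of a polynomial suffice for the order of magnitude of Waring's function.** -/
theorem result :
    -- a positive proportion of the values
    (∀ P : Polynomial ℤ, 1 ≤ P.natDegree → ∃ F : ℕ → ℕ, ∀ k s C : ℕ, 2 ≤ k → ManyValues P k s C →
      k ≤ P.natDegree * s ∧ ∃ N₁ : ℕ, ∀ n ≥ N₁, IsSum k (F C * s) n) ∧
    -- all large values
    (∀ P : Polynomial ℤ, 1 ≤ P.natDegree → ∃ K : ℕ, ∀ k s : ℕ, 2 ≤ k →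
      (∃ m₀ : ℕ, ∀ m ≥ m₀, ValueIsSum P k s m) →
        k ≤ P.natDegree * s ∧ ∃ N₁ : ℕ, ∀ n ≥ N₁, IsSum k (K * s) n) ∧
    -- `r`-th powers, for every fixed `r`
    (∀ r : ℕ, 1 ≤ r → ∃ K : ℕ, ∀ k s : ℕ, 2 ≤ k → (∃ m₀ : ℕ, ∀ m ≥ m₀, IsSum k s (m ^ r)) →
      k ≤ r * s ∧ ∃ N₁ : ℕ, ∀ n ≥ N₁, IsSum k (K * s) n) ∧
    -- the equivalence
    (∀ P : Polynomial ℤ, 1 ≤ P.natDegree → 0 < P.leadingCoeff →
      ((∃ C : ℕ, ∀ k : ℕ, 2 ≤ k → ∃ N₁ : ℕ, ∀ n ≥ N₁, IsSum k (C * k) n) ↔
        ∃ C : ℕ, ∀ k : ℕ, 2 ≤ k → ManyValues P k (C * k) C)) := by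
  have hmain : ∀ P : Polynomial ℤ, 1 ≤ P.natDegree → ∃ F : ℕ → ℕ, ∀ k s C : ℕ, 2 ≤ k →
      ManyValues P k s C → k ≤ P.natDegree * s ∧ ∃ N₁ : ℕ, ∀ n ≥ N₁, IsSum k (F C * s) n := by
    intro P hP
    obtain ⟨F, hF⟩ := Pool.Agent.Q189.PV.main P hP
    exact ⟨F, fun k s C hk h => hF k s C hk h⟩
  have hmany : ∀ (P : Polynomial ℤ) (k s m₀ : ℕ), (∀ m ≥ m₀, ValueIsSum P k s m) →
      ManyValues P k s 2 := fun P k s m₀ h => Pool.Agent.Q189.PV.many_of_all h
  have hall : ∀ P : Polynomial ℤ, 1 ≤ P.natDegree → ∃ K : ℕ, ∀ k s : ℕ, 2 ≤ k →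
      (∃ m₀ : ℕ, ∀ m ≥ m₀, ValueIsSum P k s m) →
        k ≤ P.natDegree * s ∧ ∃ N₁ : ℕ, ∀ n ≥ N₁, IsSum k (K * s) n := by
    intro P hP
    obtain ⟨F, hF⟩ := hmain P hP
    refine ⟨F 2, fun k s hk h => ?_⟩
    obtain ⟨m₀, h⟩ := h
    exact hF k s 2 hk (hmany P k s m₀ h)
  refine ⟨hmain, hall, ?_, ?_⟩
  · intro r hr
    have hd : (Polynomial.X ^ r : Polynomial ℤ).natDegree = r := Polynomial.natDegree_X_pow r
    obtain ⟨K, hK⟩ := hall (Polynomial.X ^ r) (by rw [hd]; exact hr)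
    rw [hd] at hK
    refine ⟨K, fun k s hk h => ?_⟩
    obtain ⟨m₀, h⟩ := h
    refine hK k s hk ⟨m₀, fun m hm => ⟨m ^ r, ?_, h m hm⟩⟩
    simp
  · intro P hP hl
    constructor
    · rintro ⟨C, h⟩
      refine ⟨C + 2, fun k hk => ?_⟩
      obtain ⟨N₁, h1⟩ := h k hk
      obtain ⟨m₀, h2⟩ := Pool.Agent.Q189.PV.large_values P hP hl N₁
      have h3 : ManyValues P k (C * k) 2 := by
        apply hmany P k (C * k) m₀
        intro m hm
        obtain ⟨n, hn1, hn2⟩ := h2 m hm
        exact ⟨n, hn2, h1 n hn1⟩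
      exact Pool.Agent.Q189.PV.ManyValues.mono (by omega) h3 (Nat.mul_le_mul_right _ (by omega))
        (by omega)
    · rintro ⟨C, h⟩
      obtain ⟨F, hF⟩ := hmain P hP
      refine ⟨F C * C, fun k hk => ?_⟩
      obtain ⟨-, N₁, h1⟩ := hF k (C * k) C hk (h k hk)
      refine ⟨N₁, fun n hn => ?_⟩
      rw [mul_assoc]
      exact h1 n hn

end Pool.Agent.Results.MP_45c923_nt.PolynomialValuesSuffice
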