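import Pool.Agent.Q189.WP.Main

/-!
# The order of magnitude of `G(k)` is decided by the primes that are sums of few `k`-th powers

If all large primes are sums of `s` `k`-th powers, then `s ≥ k` and `G(k) ≤ K s` with an absolute
constant `K`; so Waring's function `G(k)` has the same order of magnitude as the function for prime
numbers. It is enough that a positive proportion of the primes up to one number `x` of each window
`[N, N ^ C]` are sums of `s` `k`-th powers; `G(k) = O(k)` is equivalent to this with `s = C k`.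

Proof. The sieve bound for the number of representations `n = p + q` gives
`∑ r(n) ^ 2 = O(x ^ 3 / (log x) ^ 4)`; by the inequality of Cauchy and Schwarz the sums of two primes of a set
with at least `x / (C log x)` elements form a positive proportion of the integers up to `2 x`. Now
the criterion of `Pool/Agent/Q110/GW/Crit.lean` (Kneser's theorem and the greedy step) applies.
-/

set_option autoImplicit false

namespace Pool.Agent.Results.MP_45c923_nt.PrimesSuffice

/-- `n` is a sum of `s` `k`-th powers of natural numbers (zero allowed) -/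
def IsSum (k s n : ℕ) : Prop := ∃ x : Fin s → ℕ, ∑ i, x i ^ k = n

open Classical in
/-- the number of the primes up to `x` that are sums of `s` `k`-th powers -/
noncomputable def primeCount (k s x : ℕ) : ℕ :=
  ((Finset.Icc 1 x).filter (fun p => p.Prime ∧ IsSum k s p)).card

/-- For all large `N` there is `x` in `[N, N ^ C]` such that at least `x / (C log x)` primes up to `x`
are sums of `s` `k`-th powers. -/
def ManyPrimes (k s C : ℕ) : Prop :=
  ∃ N₀ : ℕ, ∀ N ≥ N₀, ∃ x : ℕ, N ≤ x ∧ x ≤ N ^ C ∧ (x : ℝ) ≤ C * (primeCount k s x * Real.log x)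

/-- **Primes suffice for the order of magnitude of Waring's function.** -/
theorem result :
    -- a positive proportion of the primes
    (∃ F : ℕ → ℕ, ∀ k s C : ℕ, 2 ≤ k → ManyPrimes k s C →
      k ≤ s ∧ ∃ N₁ : ℕ, ∀ n ≥ N₁, IsSum k (F C * s) n) ∧
    -- all large primes
    (∃ K : ℕ, ∀ k s : ℕ, 2 ≤ k → (∃ N₀ : ℕ, ∀ p ≥ N₀, p.Prime → IsSum k s p) →
      k ≤ s ∧ ∃ N₁ : ℕ, ∀ n ≥ N₁, IsSum k (K * s) n) ∧
    -- the equivalence
    ((∃ C : ℕ, ∀ k : ℕ, 2 ≤ k → ∃ N₁ : ℕ, ∀ n ≥ N₁, IsSum k (C * k) n) ↔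
      ∃ C : ℕ, ∀ k : ℕ, 2 ≤ k → ManyPrimes k (C * k) C) := by
  obtain ⟨F, hF⟩ : ∃ F : ℕ → ℕ, ∀ k s C : ℕ, 2 ≤ k → ManyPrimes k s C →
      k ≤ s ∧ ∃ N₁ : ℕ, ∀ n ≥ N₁, IsSum k (F C * s) n := by
    obtain ⟨F, hF⟩ := Pool.Agent.Q189.WP.main
    exact ⟨F, fun k s C hk h => hF k s C hk h⟩
  have hall : ∀ {k s N₁ : ℕ}, (∀ p ≥ N₁, p.Prime → IsSum k s p) → ManyPrimes k s 2 :=
    fun h => Pool.Agent.Q189.WP.many_of_all h
  refine ⟨⟨F, hF⟩, ⟨F 2, fun k s hk h => ?_⟩, ?_, ?_⟩
  · obtain ⟨N₀, h⟩ := h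
    exact hF k s 2 hk (hall h)
  · rintro ⟨C, H⟩
    refine ⟨C + 2, fun k hk => ?_⟩
    obtain ⟨N₁, h1⟩ := H k hk
    have h2 : ManyPrimes k (C * k) 2 := hall (fun p hp _ => h1 p hp)
    exact Pool.Agent.Q189.WP.ManyPrimes.mono (by omega) h2
      (Nat.mul_le_mul_right _ (by omega)) (by omega)
  · rintro ⟨C, H⟩
    refine ⟨F C * C, fun k hk => ?_⟩
    obtain ⟨-, N₁, h1⟩ := hF k (C * k) C hk (H k hk)
    refine ⟨N₁, fun n hn => ?_⟩
    rw [mul_assoc]
    exact h1 n hn

end Pool.Agent.Results.MP_45c923_nt.PrimesSuffice
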